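import Mathlib
import Pool.Agent.H.MP_fed0c4_co.D

set_option autoImplicit false

open Pool.Agent.H.MP_fed0c4_co

theorem Pool.Agent.Results.MP_6bdaeb_co.Q1.result :
    ∃ (V : Type) (G : SimpleGraph V), Infinite V ∧ G.Connected ∧
      (∀ v, (G.neighborSet v).Finite) ∧ VT G ∧
      (∀ r : ℕ, ∃ (n : ℕ) (H : SimpleGraph (Fin n)), H.Connected ∧ VT H ∧
        ∃ o v, SameBall G o H v r) ∧
      ∀ c : ℕ, ∃ r : ℕ, 1 ≤ r ∧ ∀ (n : ℕ) (H : SimpleGraph (Fin n)), H.Connected → VT H →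
        (∃ o v, SameBall G o H v r) → c * r < H.diam := by
  refine ⟨_, Cay (y ℤ), inf, conn good (gen _), fun v => Set.finite_of_ncard_ne_zero
    (by rw [deg good]; norm_num), vt good, fun r => ?_, fun c => ?_⟩
  · obtain ⟨n, G, o, a, b, -, d⟩ := fin r
    exact ⟨n, G, a, b, _, _, d.symm⟩
  · obtain ⟨r, a, h⟩ := main2 c
    exact ⟨r, a, fun n H b c ⟨o, v, d⟩ => h n H b c o v d⟩
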