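import Mathlib
import Pool.Agent.H.MP_fed0c4_co.D

set_option autoImplicit false

open Pool.Agent.H.MP_fed0c4_co

theorem Pool.Agent.Results.MP_6bdaeb_co.Q2.result :
    ∃ d : ℕ, ∀ c : ℕ, ∃ (n : ℕ) (H : SimpleGraph (Fin n)) (r : ℕ), 1 ≤ r ∧ H.Connected ∧ VT H ∧
      (∀ v, (H.neighborSet v).ncard = d) ∧
      ∀ (m : ℕ) (H' : SimpleGraph (Fin m)), H'.Connected → VT H' →
        (∃ o v, SameBall H o H' v r) → c * r < H'.diam := by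
  refine ⟨15, fun c => ?_⟩
  obtain ⟨r, a, h⟩ := main2 c
  obtain ⟨n, G, o, a1, b, c, d⟩ := fin r
  exact ⟨n, G, r, a, a1, b, c, fun m H h1 h2 ⟨u, v, h3⟩ =>
    h m H h1 h2 _ v (d.symm.trans ((sb_vt a1 b o u r).trans h3))⟩
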